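import Pool.Agent.Y957.MC.Spec

/-!
Project MC (helper957): coefficients of low order.
-/

set_option autoImplicit false

namespace Pool.Agent.Y888.MC

open Pool.Agent.Y957.MC MeasureTheory Set

/-- Fubini on a triangle. -/
theorem triangle (F k : ℝ → ℂ) (hF : Measurable F) (hk : Measurable k) (C : ℝ)
    (hF1 : ∀ v, ‖F v‖ ≤ 1) (hkC : ∀ v, ‖k v‖ ≤ C) (a b : ℝ) (hab : a ≤ b) :
    ∫ w in a..b, F w * ∫ r in w..b, k r = ∫ r in a..b, k r * ∫ w in a..r, F w := by
  set μ : Measure ℝ := volume.restrict (Ioc a b) with hμ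
  have hC : 0 ≤ C := (norm_nonneg _).trans (hkC 0)
  set g : ℝ → ℝ → ℂ := fun w r => (Ioi w).indicator (fun r => F w * k r) r with hg
  have hset : MeasurableSet {p : ℝ × ℝ | p.1 < p.2} := measurableSet_lt measurable_fst measurable_snd
  have hgu : Function.uncurry g =
      {p : ℝ × ℝ | p.1 < p.2}.indicator (fun p => F p.1 * k p.2) := by
    funext p
    rcases p with ⟨w, r⟩
    simp only [Function.uncurry, hg, indicator, mem_Ioi, mem_ofPred_eq]
  have hint : Integrable (Function.uncurry g) (μ.prod μ) := by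
    rw [hgu]
    refine Integrable.of_bound (C := C) ?_ ?_
    · exact (((hF.comp measurable_fst).mul (hk.comp measurable_snd)).indicator
        hset).aestronglyMeasurable
    · refine Filter.Eventually.of_forall fun p => ?_
      refine (norm_indicator_le_norm_self _ _).trans ?_
      rw [norm_mul]
      calc ‖F p.1‖ * ‖k p.2‖ ≤ 1 * C := mul_le_mul (hF1 _) (hkC _) (norm_nonneg _) zero_le_one
        _ = C := one_mul C
  have hswap := integral_integral_swap hint
  rw [intervalIntegral.integral_of_le hab, intervalIntegral.integral_of_le hab]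
  have h1 : ∀ w ∈ Ioc a b, ∫ r, g w r ∂μ = F w * ∫ r in w..b, k r := by
    intro w hw
    rw [intervalIntegral.integral_of_le hw.2, hμ]
    simp only [hg]
    rw [integral_indicator measurableSet_Ioi, Measure.restrict_restrict measurableSet_Ioi,
      ← integral_const_mul]
    congr 2
    ext r
    simp only [mem_inter_iff, mem_Ioi, mem_Ioc]
    exact ⟨fun h => ⟨h.1, h.2.2⟩, fun h => ⟨h.1, hw.1.trans h.1, h.2⟩⟩
  have h2 : ∀ r ∈ Ioc a b, ∫ w, g w r ∂μ = k r * ∫ w in a..r, F w := by
    intro r hr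
    rw [intervalIntegral.integral_of_le hr.1.le, hμ]
    have e : ∀ w, g w r = (Iio r).indicator (fun w => k r * F w) w := by
      intro w
      simp only [hg, indicator, mem_Ioi, mem_Iio]
      split_ifs
      · ring
      · rfl
    simp only [e]
    rw [integral_indicator measurableSet_Iio, Measure.restrict_restrict measurableSet_Iio,
      ← integral_const_mul, integral_Ioc_eq_integral_Ioo]
    congr 2
    ext w
    simp only [mem_inter_iff, mem_Iio, mem_Ioc, mem_Ioo]
    exact ⟨fun h => ⟨h.2.1, h.1⟩, fun h => ⟨h.2, h.1, h.2.le.trans hr.2⟩⟩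
  rw [← setIntegral_congr_fun measurableSet_Ioc (fun w hw => h1 w hw),
    ← setIntegral_congr_fun measurableSet_Ioc (fun r hr => h2 r hr)]
  exact hswap

/-- the change of variables -/
theorem chv (Λ M ω : ℝ) (F : ℝ → ℂ) (hΛ : 0 ≤ Λ) (hM : 0 < M) :
    ∫ s in (0 : ℝ)..Λ, F (M * Real.exp s) * Complex.exp (-((ω * s : ℝ) : ℂ) * Complex.I) =
      ∫ w in M..M * Real.exp Λ, F w * (((w⁻¹ : ℝ) : ℂ) *
        Complex.exp (-((ω * Real.log (w / M) : ℝ) : ℂ) * Complex.I)) := by
  have hMB : M ≤ M * Real.exp Λ := by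
    have := Real.one_le_exp hΛ
    nlinarith
  rw [intervalIntegral.integral_of_le hΛ, intervalIntegral.integral_of_le hMB]
  have himg : (fun s => M * Real.exp s) '' Ioc 0 Λ = Ioc M (M * Real.exp Λ) := by
    ext w
    simp only [mem_image, mem_Ioc]
    constructor
    · rintro ⟨s, ⟨h1, h2⟩, rfl⟩
      constructor
      · have := Real.one_lt_exp_iff.2 h1
        nlinarith
      · exact mul_le_mul_of_nonneg_left (Real.exp_le_exp.2 h2) hM.le
    · rintro ⟨h1, h2⟩
      have hw : 0 < w := hM.trans h1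
      refine ⟨Real.log (w / M), ⟨Real.log_pos ((one_lt_div hM).2 h1), ?_⟩, ?_⟩
      · rw [Real.log_le_iff_le_exp (by positivity), div_le_iff₀ hM, mul_comm]
        exact h2
      · rw [Real.exp_log (by positivity)]
        field_simp
  rw [← himg, integral_image_eq_integral_abs_deriv_smul (f' := fun s => M * Real.exp s)
    measurableSet_Ioc (fun x _ => ((Real.hasDerivAt_exp x).const_mul M).hasDerivWithinAt)
    (fun x _ y _ h => by
      have h1 := mul_left_cancel₀ hM.ne' h
      exact Real.exp_injective h1)]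
  refine setIntegral_congr_fun measurableSet_Ioc fun s _ => ?_
  have h1 : 0 < M * Real.exp s := by positivity
  have h2 : M * Real.exp s / M = Real.exp s := by field_simp
  rw [abs_of_pos h1, h2, Real.log_exp, Complex.real_smul]
  have h3 : ((M * Real.exp s : ℝ) : ℂ) ≠ 0 := Complex.ofReal_ne_zero.2 h1.ne'
  rw [Complex.ofReal_inv]
  field_simp

theorem low : S_LOW := by
  intro Λ F G hΛ hF hF1 hP M hM k
  have hΛ0 : 0 < Λ := by linarith
  set ω : ℝ := 2 * Real.pi * k / Λ with hω
  set B : ℝ := M * Real.exp Λ with hB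
  have hMB : M ≤ B := by
    have := Real.one_le_exp hΛ0.le
    rw [hB]; nlinarith
  have hB0 : 0 < B := hM.trans_le hMB
  have hG : 0 ≤ G := by
    have := hP 0 le_rfl
    rw [intervalIntegral.integral_same, norm_zero] at this
    exact this
  set P : ℝ → ℂ := fun v => ∫ s in (0 : ℝ)..v, F s with hPd
  set K : ℝ → ℂ := fun w => ((w⁻¹ : ℝ) : ℂ) *
    Complex.exp (-((ω * Real.log (w / M) : ℝ) : ℂ) * Complex.I) with hK
  set c : ℂ := -(1 + (ω : ℂ) * Complex.I) with hc
  -- derivative of `K`, cut off at `M`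
  set k1 : ℝ → ℂ := fun w => c * ((((max w M) ^ 2)⁻¹ : ℝ) : ℂ) *
    Complex.exp (-((ω * Real.log (w / M) : ℝ) : ℂ) * Complex.I) with hk1
  have hexp : ∀ x : ℝ, ‖Complex.exp (-(x : ℂ) * Complex.I)‖ = 1 := by
    intro x
    rw [← Complex.ofReal_neg]
    exact Complex.norm_exp_ofReal_mul_I _
  have hFint : ∀ a b : ℝ, IntervalIntegrable F volume a b := by
    intro a b
    rw [intervalIntegrable_iff]
    exact Measure.integrableOn_of_bounded (M := 1) (by
      rw [uIoc, Real.volume_Ioc]; exact ENNReal.ofReal_ne_top) hF.aestronglyMeasurable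
      (Filter.Eventually.of_forall hF1)
  have hk1m : Measurable k1 := by
    rw [hk1]
    fun_prop
  have hk1n : ∀ w, ‖k1 w‖ = ‖c‖ * ((max w M) ^ 2)⁻¹ := by
    intro w
    rw [hk1]
    simp only
    rw [norm_mul, norm_mul, hexp, mul_one, Complex.norm_real, Real.norm_eq_abs,
      abs_of_nonneg (by positivity)]
  have hk1b : ∀ w, ‖k1 w‖ ≤ ‖c‖ * (M ^ 2)⁻¹ := by
    intro w
    rw [hk1n]
    refine mul_le_mul_of_nonneg_left ?_ (norm_nonneg _)
    have h1 : M ≤ max w M := le_max_right _ _
    have h2 : M ^ 2 ≤ (max w M) ^ 2 := by gcongr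
    exact inv_anti₀ (by positivity) h2
  have hk1int : ∀ a b : ℝ, IntervalIntegrable k1 volume a b := by
    intro a b
    rw [intervalIntegrable_iff]
    exact Measure.integrableOn_of_bounded (M := ‖c‖ * (M ^ 2)⁻¹) (by
      rw [uIoc, Real.volume_Ioc]; exact ENNReal.ofReal_ne_top) hk1m.aestronglyMeasurable
      (Filter.Eventually.of_forall hk1b)
  have hderiv : ∀ w, M ≤ w → HasDerivAt K (k1 w) w := by
    intro w hw
    have hw0 : 0 < w := hM.trans_le hw
    have h1 : HasDerivAt (fun w : ℝ => w⁻¹) (-(w ^ 2)⁻¹) w := hasDerivAt_inv hw0.ne'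
    have h2 : HasDerivAt (fun w : ℝ => ω * Real.log (w / M)) (ω * (1 / M / (w / M))) w := by
      refine HasDerivAt.const_mul ω ?_
      exact ((hasDerivAt_id w).div_const M).log (by
        simp only [id]
        exact (div_pos hw0 hM).ne')
    have h3 : HasDerivAt (fun w : ℝ =>
        Complex.exp (-((ω * Real.log (w / M) : ℝ) : ℂ) * Complex.I))
        (Complex.exp (-((ω * Real.log (w / M) : ℝ) : ℂ) * Complex.I) *
          (-((ω * (1 / M / (w / M)) : ℝ) : ℂ) * Complex.I)) w := by
      exact ((h2.ofReal_comp.neg).mul_const Complex.I).cexp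
    have h4 := h1.ofReal_comp.mul h3
    have e : k1 w = ((-(w ^ 2)⁻¹ : ℝ) : ℂ) *
          Complex.exp (-((ω * Real.log (w / M) : ℝ) : ℂ) * Complex.I) +
        ((w⁻¹ : ℝ) : ℂ) * (Complex.exp (-((ω * Real.log (w / M) : ℝ) : ℂ) * Complex.I) *
          (-((ω * (1 / M / (w / M)) : ℝ) : ℂ) * Complex.I)) := by
      have h5 : ω * (1 / M / (w / M)) = ω * w⁻¹ := by
        field_simp
      rw [hk1]
      simp only
      rw [max_eq_left hw, h5, hc]
      push_cast
      have h6 : (w : ℂ) ≠ 0 := Complex.ofReal_ne_zero.2 hw0.ne'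
      field_simp
      ring
    rw [e]
    exact h4
  have hftc : ∀ w, M ≤ w → w ≤ B → ∫ r in w..B, k1 r = K B - K w := by
    intro w hw hwB
    refine intervalIntegral.integral_eq_sub_of_hasDerivAt (fun r hr => ?_) (hk1int _ _)
    rw [uIcc_of_le hwB] at hr
    exact hderiv r (hw.trans hr.1)
  have hPc : ∀ r, M ≤ r → ∫ w in M..r, F w = P r - P M := by
    intro r _
    rw [hPd]
    simp only
    rw [intervalIntegral.integral_interval_sub_left (hFint _ _) (hFint _ _)]
  -- integrability of products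
  have hKm : Measurable K := by
    rw [hK]
    fun_prop
  have hKn : ∀ w, ‖K w‖ = |w|⁻¹ := by
    intro w
    rw [hK]
    simp only
    rw [norm_mul, hexp, mul_one, Complex.norm_real, Real.norm_eq_abs, abs_inv]
  have hPcont : Continuous P := by
    rw [hPd]
    exact intervalIntegral.continuous_primitive (fun a b => hFint a b) 0
  have hk1P : IntervalIntegrable (fun r => k1 r * P r) volume M B :=
    (hk1int M B).mul_continuousOn hPcont.continuousOn
  -- the main identity
  have hmain : ∫ w in M..B, F w * K w = K B * P B - K M * P M - ∫ r in M..B, k1 r * P r := by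
    have h1 : ∫ w in M..B, F w * K w = ∫ w in M..B, (F w * K B - F w * ∫ r in w..B, k1 r) := by
      refine intervalIntegral.integral_congr fun w hw => ?_
      rw [uIcc_of_le hMB] at hw
      rw [hftc w hw.1 hw.2]
      ring
    have hI1 : IntervalIntegrable (fun w => F w * K B) volume M B := (hFint _ _).mul_const _
    have hI2 : IntervalIntegrable (fun w => F w * ∫ r in w..B, k1 r) volume M B := by
      refine (hFint _ _).mul_continuousOn ?_
      have h2 : Continuous fun w => ∫ r in w..B, k1 r := by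
        have h3 := intervalIntegral.continuous_primitive (fun a b => hk1int a b) B
        have h4 : (fun w => ∫ r in w..B, k1 r) = fun w => -∫ r in B..w, k1 r := by
          funext w
          rw [intervalIntegral.integral_symm]
        rw [h4]
        exact h3.neg
      exact h2.continuousOn
    rw [h1, intervalIntegral.integral_sub hI1 hI2, intervalIntegral.integral_mul_const,
      triangle F k1 hF hk1m _ hF1 hk1b M B hMB, hPc B hMB]
    have h5 : ∫ r in M..B, k1 r * ∫ w in M..r, F w = ∫ r in M..B, (k1 r * P r - k1 r * P M) := by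
      refine intervalIntegral.integral_congr fun r hr => ?_
      rw [uIcc_of_le hMB] at hr
      rw [hPc r hr.1]
      ring
    rw [h5, intervalIntegral.integral_sub hk1P ((hk1int _ _).mul_const _),
      intervalIntegral.integral_mul_const, hftc M le_rfl hMB]
    ring
  -- bounds
  have hPG : ∀ v, 0 ≤ v → ‖P v‖ ≤ G := hP
  have hb1 : ‖K B * P B‖ ≤ G / M := by
    rw [norm_mul, hKn, abs_of_pos hB0]
    calc B⁻¹ * ‖P B‖ ≤ M⁻¹ * G :=
          mul_le_mul (inv_anti₀ hM hMB) (hPG B hB0.le) (norm_nonneg _) (by positivity)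
      _ = G / M := by rw [div_eq_inv_mul]
  have hb2 : ‖K M * P M‖ ≤ G / M := by
    rw [norm_mul, hKn, abs_of_pos hM]
    calc M⁻¹ * ‖P M‖ ≤ M⁻¹ * G := mul_le_mul_of_nonneg_left (hPG M hM.le) (by positivity)
      _ = G / M := by rw [div_eq_inv_mul]
  have hcn : ‖c‖ ≤ 1 + |ω| := by
    rw [hc, norm_neg]
    refine (norm_add_le _ _).trans ?_
    rw [norm_one, norm_mul, Complex.norm_I, mul_one, Complex.norm_real, Real.norm_eq_abs]
  have hb3 : ‖∫ r in M..B, k1 r * P r‖ ≤ ‖c‖ * G / M := by
    have h1 : ‖∫ r in M..B, k1 r * P r‖ ≤ ∫ r in M..B, ‖c‖ * G * (r ^ 2)⁻¹ := by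
      refine intervalIntegral.norm_integral_le_of_norm_le hMB ?_ ?_
      · refine Filter.Eventually.of_forall fun r hr => ?_
        rw [norm_mul, hk1n, max_eq_left hr.1.le]
        have h2 := hPG r (hM.le.trans hr.1.le)
        calc ‖c‖ * (r ^ 2)⁻¹ * ‖P r‖ ≤ ‖c‖ * (r ^ 2)⁻¹ * G :=
              mul_le_mul_of_nonneg_left h2 (by positivity)
          _ = ‖c‖ * G * (r ^ 2)⁻¹ := by ring
      · refine ContinuousOn.intervalIntegrable ?_
        intro r hr
        rw [uIcc_of_le hMB] at hr
        have hr0 : r ≠ 0 := (hM.trans_le hr.1).ne'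
        have : ContinuousAt (fun r : ℝ => ‖c‖ * G * (r ^ 2)⁻¹) r := by
          refine ContinuousAt.mul continuousAt_const ?_
          exact (continuousAt_id.pow 2).inv₀ (pow_ne_zero 2 hr0)
        exact this.continuousWithinAt
    have h2 : ∫ r in M..B, (r ^ 2)⁻¹ = M⁻¹ - B⁻¹ := by
      have h3 : ∀ r ∈ uIcc M B, HasDerivAt (fun r : ℝ => -r⁻¹) ((r ^ 2)⁻¹) r := by
        intro r hr
        rw [uIcc_of_le hMB] at hr
        have := (hasDerivAt_inv (hM.trans_le hr.1).ne').neg
        rwa [neg_neg] at this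
      rw [intervalIntegral.integral_eq_sub_of_hasDerivAt h3]
      · ring
      · refine ContinuousOn.intervalIntegrable ?_
        intro r hr
        rw [uIcc_of_le hMB] at hr
        have hr0 : r ≠ 0 := (hM.trans_le hr.1).ne'
        exact ((continuousAt_id.pow 2).inv₀ (pow_ne_zero 2 hr0)).continuousWithinAt
    rw [intervalIntegral.integral_const_mul, h2] at h1
    refine h1.trans ?_
    have h4 : 0 ≤ B⁻¹ := by positivity
    have h5 : 0 ≤ ‖c‖ * G := by positivity
    calc ‖c‖ * G * (M⁻¹ - B⁻¹) ≤ ‖c‖ * G * M⁻¹ := mul_le_mul_of_nonneg_left (by linarith) h5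
      _ = ‖c‖ * G / M := by rw [div_eq_mul_inv]
  have htot : ‖∫ w in M..B, F w * K w‖ ≤ (3 + |ω|) * (G / M) := by
    rw [hmain]
    refine (norm_sub_le _ _).trans ?_
    have h1 := norm_sub_le (K B * P B) (K M * P M)
    have h2 : ‖c‖ * G / M ≤ (1 + |ω|) * (G / M) := by
      rw [mul_div_assoc]
      exact mul_le_mul_of_nonneg_right hcn (by positivity)
    nlinarith
  have hωk : |ω| ≤ 7 * |(k : ℝ)| := by
    rw [hω, abs_div, abs_mul, abs_of_pos (by positivity : (0 : ℝ) < 2 * Real.pi),
      abs_of_pos hΛ0, div_le_iff₀ hΛ0]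
    have h1 : 2 * Real.pi ≤ 7 := by
      have := Real.pi_lt_d2
      linarith
    have h2 : 0 ≤ |(k : ℝ)| := abs_nonneg _
    calc 2 * Real.pi * |(k : ℝ)| ≤ 7 * |(k : ℝ)| * 1 := by nlinarith
      _ ≤ 7 * |(k : ℝ)| * Λ := mul_le_mul_of_nonneg_left hΛ (by positivity)
  have hcf : cf Λ F M k = (1 / (Λ : ℂ)) * ∫ w in M..B, F w * K w := by
    unfold cf
    rw [← chv Λ M ω F hΛ0.le hM]
  rw [hcf, norm_mul, norm_div, norm_one, Complex.norm_real, Real.norm_eq_abs, abs_of_pos hΛ0]
  have h1 : 1 / Λ ≤ 1 := by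
    rw [div_le_one hΛ0]; exact hΛ
  have h2 : 0 ≤ G / M := by positivity
  calc 1 / Λ * ‖∫ w in M..B, F w * K w‖ ≤ 1 * ((3 + |ω|) * (G / M)) :=
        mul_le_mul h1 htot (norm_nonneg _) zero_le_one
    _ ≤ 7 * (1 + |(k : ℝ)|) * (G / M) := by
        rw [one_mul]
        refine mul_le_mul_of_nonneg_right ?_ h2
        linarith
    _ = 7 * G * (1 + |(k : ℝ)|) / M := by ring

end Pool.Agent.Y888.MC
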